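import Pool.Agent.Y592.C.Surj

/-!
# Volume of a slab and lattice points
-/

namespace Pool.Agent.Y592.C

open MeasureTheory Matrix

section
variable {ι : Type*} [Fintype ι] {s : ℕ}

/-- the slab -/
def Slab (F : (ι → ℝ) → Fin s → ℝ) (z : ι → ℝ) (a : Fin s → ι) (r r' : ℝ) (W : Fin s → ℝ) :
    Set (ι → ℝ) :=
  {x | (∀ i, ¬ (∃ j, a j = i) → |x i - z i| ≤ r) ∧ (∀ j, |x (a j) - z (a j)| ≤ r') ∧
    ∀ j, |F x j| ≤ W j}

theorem Slab.mem_cube {F : (ι → ℝ) → Fin s → ℝ} {z : ι → ℝ} {a : Fin s → ι} {r r' R : ℝ}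
    {W : Fin s → ℝ} {x : ι → ℝ} (hx : x ∈ Slab F z a r r' W) (hr : r ≤ R) (hr' : r' ≤ R) (i : ι) :
    |x i - z i| ≤ R := by
  by_cases hi : ∃ j, a j = i
  · obtain ⟨j, rfl⟩ := hi
    exact (hx.2.1 j).trans hr'
  · exact (hx.1 i hi).trans hr

/-- the map `x ↦ (x_rest, F x)` -/
noncomputable def Psi (F : (ι → ℝ) → Fin s → ℝ) (a : Fin s → ι) (x : ι → ℝ) : ι → ℝ :=
  Function.extend a (F x) x

/-- the box -/
def Box (z : ι → ℝ) (a : Fin s → ι) (r : ℝ) (W : Fin s → ℝ) : Set (ι → ℝ) :=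
  {y | (∀ i, ¬ (∃ j, a j = i) → |y i - z i| ≤ r) ∧ ∀ j, |y (a j)| ≤ W j}

theorem vol_box (z : ι → ℝ) {a : Fin s → ι} (ha : Function.Injective a) {r : ℝ} (hr : 0 ≤ r)
    {W : Fin s → ℝ} (hW : ∀ j, 0 ≤ W j) :
    volume (Box z a r W) =
      ENNReal.ofReal ((2 * r) ^ (Fintype.card ι - s) * ∏ j, (2 * W j)) := by
  have h1 : Box z a r W = Set.Icc (fun i => Function.extend a (fun _ => (0 : ℝ)) z i -
      Function.extend a W (fun _ => r) i) (fun i => Function.extend a (fun _ => (0 : ℝ)) z i +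
      Function.extend a W (fun _ => r) i) := by
    ext y
    simp only [Box, Set.mem_ofPred_eq, Set.mem_Icc, Pi.le_def]
    constructor
    · rintro ⟨h1, h2⟩
      constructor
      · intro i
        by_cases hi : ∃ j, a j = i
        · obtain ⟨j, rfl⟩ := hi
          rw [ext_a a ha, ext_a a ha]
          linarith [(abs_le.mp (h2 j)).1]
        · rw [ext_not a _ _ hi, ext_not a _ _ hi]
          linarith [(abs_le.mp (h1 i hi)).1]
      · intro i
        by_cases hi : ∃ j, a j = i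
        · obtain ⟨j, rfl⟩ := hi
          rw [ext_a a ha, ext_a a ha]
          linarith [(abs_le.mp (h2 j)).2]
        · rw [ext_not a _ _ hi, ext_not a _ _ hi]
          linarith [(abs_le.mp (h1 i hi)).2]
    · rintro ⟨h1, h2⟩
      constructor
      · intro i hi
        have h3 := h1 i
        have h4 := h2 i
        rw [ext_not a _ _ hi, ext_not a _ _ hi] at h3 h4
        rw [abs_le]
        constructor <;> linarith
      · intro j
        have h3 := h1 (a j)
        have h4 := h2 (a j)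
        rw [ext_a a ha, ext_a a ha] at h3 h4
        rw [abs_le]
        constructor <;> linarith
  rw [h1, Real.volume_Icc_pi]
  rw [← ENNReal.ofReal_prod_of_nonneg]
  · congr 1
    have h2 : ∀ i, Function.extend a (fun _ => (0 : ℝ)) z i + Function.extend a W (fun _ => r) i -
        (Function.extend a (fun _ => (0 : ℝ)) z i - Function.extend a W (fun _ => r) i) =
        Function.extend a (fun j => 2 * W j) (fun _ => 2 * r) i := by
      intro i
      by_cases hi : ∃ j, a j = i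
      · obtain ⟨j, rfl⟩ := hi
        rw [ext_a a ha, ext_a a ha, ext_a a ha]
        ring
      · rw [ext_not a _ _ hi, ext_not a _ _ hi, ext_not a _ _ hi]
        ring
    rw [Finset.prod_congr rfl (fun i _ => h2 i), prod_ext a ha]
    ring
  · intro i _
    by_cases hi : ∃ j, a j = i
    · obtain ⟨j, rfl⟩ := hi
      rw [ext_a a ha, ext_a a ha]
      linarith [hW j]
    · rw [ext_not a _ _ hi, ext_not a _ _ hi]
      linarith

/-- volume of the image of a set under `Psi` -/
theorem vol_Psi {δ τ : ℝ}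
    (hδ : ∀ (S : Set (ι → ℝ)) (f : (ι → ℝ) → (ι → ℝ)),
      (∀ x ∈ S, ∀ y ∈ S, ‖f x - f y - (x - y)‖ ≤ δ * ‖x - y‖) →
      volume (f '' S) ≤ ENNReal.ofReal (1 + τ) * volume S ∧
      ENNReal.ofReal (1 - τ) * volume S ≤ volume (f '' S))
    {F : (ι → ℝ) → Fin s → ℝ} {L : Matrix (Fin s) ι ℝ} {z : ι → ℝ} {R ε γ : ℝ}
    {a : Fin s → ι} {Li : Matrix (Fin s) (Fin s) ℝ} (ha : Function.Injective a)
    (h : NearLin F L z R ε)
    (hLi : Li * (Matrix.of fun j j' : Fin s => L j (a j')) = 1) (hγ : 0 < γ)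
    (hLiγ : ∀ j j', |Li j j'| ≤ 1 / γ) (hδ0 : 0 ≤ δ) (hεγ : s * (ε / γ) ≤ δ)
    (S : Set (ι → ℝ)) (hS : ∀ x ∈ S, ∀ i, |x i - z i| ≤ R) :
    volume (Psi F a '' S) ≤
      ENNReal.ofReal |(Matrix.of fun j j' : Fin s => L j (a j')).det| *
        (ENNReal.ofReal (1 + τ) * volume S) ∧
    ENNReal.ofReal |(Matrix.of fun j j' : Fin s => L j (a j')).det| *
      (ENNReal.ofReal (1 - τ) * volume S) ≤ volume (Psi F a '' S) := by
  classical
  set La := Matrix.of fun j j' : Fin s => L j (a j') with hLa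
  have hdet : La.det ≠ 0 := by
    intro h0
    have h1 := congrArg Matrix.det hLi
    rw [Matrix.det_mul, h0, mul_zero, Matrix.det_one] at h1
    exact zero_ne_one h1
  have hAdet : (Am a L).det ≠ 0 := by
    rw [det_Am a ha]
    exact hdet
  have hAinv : ∀ y, (Am a L).mulVec ((Am a L)⁻¹.mulVec y) = y := by
    intro y
    rw [Matrix.mulVec_mulVec, Matrix.mul_nonsing_inv _ (isUnit_iff_ne_zero.mpr hAdet),
      Matrix.one_mulVec]
  have hAinv' : ∀ y, (Am a L)⁻¹.mulVec ((Am a L).mulVec y) = y := by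
    intro y
    rw [Matrix.mulVec_mulVec, Matrix.nonsing_inv_mul _ (isUnit_iff_ne_zero.mpr hAdet),
      Matrix.one_mulVec]
  set f : (ι → ℝ) → (ι → ℝ) := fun x => (Am a L)⁻¹.mulVec (Psi F a x) with hf
  have hnear : ∀ x ∈ S, ∀ y ∈ S, ‖f x - f y - (x - y)‖ ≤ δ * ‖x - y‖ := by
    intro x hx y hy
    have h1 := h x y (hS x hx) (hS y hy) ‖x - y‖ (fun i => by
      have := norm_le_pi_norm (x - y) i
      simpa using this)
    have h2 := li_bound (Li := Li) hγ hLiγ h1
    set E : Fin s → ℝ := fun j => F x j - F y j - ∑ i, L j i * (x i - y i) with hE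
    have h3 : Psi F a x - Psi F a y - (Am a L).mulVec (x - y) =
        Function.extend a E (fun _ => 0) := by
      rw [Am_mulVec a ha]
      funext i
      simp only [Pi.sub_apply, Psi]
      by_cases hi : ∃ j, a j = i
      · obtain ⟨j, rfl⟩ := hi
        rw [ext_a a ha, ext_a a ha, ext_a a ha, ext_a a ha]
      · rw [ext_not a _ _ hi, ext_not a _ _ hi, ext_not a _ _ hi, ext_not a _ _ hi]
        simp
    have h4 : f x - f y - (x - y) =
        Function.extend a (fun j => ∑ j', Li j j' * E j') (fun _ => 0) := by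
      have h5 : f x - f y - (x - y) =
          (Am a L)⁻¹.mulVec (Psi F a x - Psi F a y - (Am a L).mulVec (x - y)) := by
        rw [Matrix.mulVec_sub, Matrix.mulVec_sub, hAinv']
      rw [h5, h3]
      have h6 : (Am a L).mulVec (Function.extend a (fun j => ∑ j', Li j j' * E j') (fun _ => 0)) =
          Function.extend a E (fun _ => 0) := by
        rw [Am_mulVec a ha]
        funext i
        by_cases hi : ∃ j, a j = i
        · obtain ⟨j, rfl⟩ := hi
          rw [ext_a a ha, ext_a a ha, sum_ext a ha]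
          exact la_apply hLi E j
        · rw [ext_not a _ _ hi, ext_not a _ _ hi, ext_not a _ _ hi]
      rw [← h6, hAinv']
    rw [h4, pi_norm_le_iff_of_nonneg (by positivity)]
    intro i
    by_cases hi : ∃ j, a j = i
    · obtain ⟨j, rfl⟩ := hi
      rw [ext_a a ha, Real.norm_eq_abs]
      refine (h2 j).trans ?_
      calc (s : ℝ) * (ε * ‖x - y‖ / γ) = s * (ε / γ) * ‖x - y‖ := by ring
        _ ≤ δ * ‖x - y‖ := mul_le_mul_of_nonneg_right hεγ (norm_nonneg _)
    · rw [ext_not a _ _ hi, norm_zero]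
      positivity
  have h1 := hδ S f hnear
  have h2 : Psi F a '' S = Matrix.toLin' (Am a L) '' (f '' S) := by
    rw [Set.image_image]
    apply Set.image_congr
    intro x _
    rw [Matrix.toLin'_apply, hAinv]
  have h3 : volume (Psi F a '' S) = ENNReal.ofReal |La.det| * volume (f '' S) := by
    rw [h2, Measure.addHaar_image_linearMap, LinearMap.det_toLin', det_Am a ha]
  rw [h3]
  exact ⟨mul_le_mul_right h1.1 _, mul_le_mul_right h1.2 _⟩

/-- cube around a point -/
def Cube (M : ℕ) (x : ι → ℤ) : Set (ι → ℝ) :=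
  Set.pi Set.univ fun i => Set.Ico ((x i : ℝ) - M / 2) (x i + M / 2)

theorem vol_cube (M : ℕ) (x : ι → ℤ) :
    volume (Cube M x) = ENNReal.ofReal ((M : ℝ) ^ Fintype.card ι) := by
  unfold Cube
  rw [Real.volume_pi_Ico, ← ENNReal.ofReal_prod_of_nonneg]
  · congr 1
    rw [Finset.prod_congr rfl (fun i _ => show (x i : ℝ) + M / 2 - (x i - M / 2) = M by ring),
      Finset.prod_const, Finset.card_univ]
  · intro i _
    have : (0 : ℝ) ≤ M := Nat.cast_nonneg _
    linarith

theorem cube_dist {M : ℕ} {x : ι → ℤ} {y : ι → ℝ} (hy : y ∈ Cube M x) (i : ι) :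
    |y i - x i| ≤ (M : ℝ) / 2 := by
  have h := hy i (Set.mem_univ i)
  rw [abs_le]
  constructor
  · linarith [h.1]
  · linarith [h.2]

theorem cube_disj {M : ℕ} (_hM : 1 ≤ M) {c x x' : ι → ℤ} (hx : ∀ i, (M : ℤ) ∣ x i - c i)
    (hx' : ∀ i, (M : ℤ) ∣ x' i - c i) (hne : x ≠ x') : Disjoint (Cube M x) (Cube M x') := by
  rw [Set.disjoint_left]
  intro y hy hy'
  apply hne
  funext i
  have h1 := hy i (Set.mem_univ i)
  have h2 := hy' i (Set.mem_univ i)
  have h3 : (M : ℤ) ∣ x i - x' i := by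
    have := dvd_sub (hx i) (hx' i)
    rwa [show x i - c i - (x' i - c i) = x i - x' i by ring] at this
  obtain ⟨q, hq⟩ := h3
  have h4 : |((x i - x' i : ℤ) : ℝ)| < M := by
    push_cast
    rw [abs_lt]
    constructor
    · linarith [h1.1, h1.2, h2.1, h2.2]
    · linarith [h1.1, h1.2, h2.1, h2.2]
  have h5 : |x i - x' i| < M := by
    have : ((|x i - x' i| : ℤ) : ℝ) < ((M : ℤ) : ℝ) := by
      rw [Int.cast_abs]
      push_cast at h4 ⊢
      exact h4
    exact_mod_cast this
  have h6 : x i - x' i = 0 := Int.eq_zero_of_abs_lt_dvd ⟨q, hq⟩ h5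
  linarith

theorem cube_cover {M : ℕ} (hM : 1 ≤ M) (c : ι → ℤ) (y : ι → ℝ) :
    ∃ x : ι → ℤ, (∀ i, (M : ℤ) ∣ x i - c i) ∧ y ∈ Cube M x := by
  have hM' : (0 : ℝ) < M := by exact_mod_cast hM
  refine ⟨fun i => c i + M * ⌊(y i - c i) / M + 1 / 2⌋, ?_, ?_⟩
  · intro i
    simp
  · intro i _
    have h1 := Int.floor_le ((y i - c i) / M + 1 / 2)
    have h2 := Int.lt_floor_add_one ((y i - c i) / M + 1 / 2)
    set t := ⌊(y i - c i) / M + 1 / 2⌋
    have h3 : (t : ℝ) * M ≤ (y i - c i) + M / 2 := by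
      have := mul_le_mul_of_nonneg_right h1 hM'.le
      rw [add_mul, div_mul_cancel₀ _ hM'.ne'] at this
      linarith
    have h4 : (y i - c i) + M / 2 < (t + 1) * M := by
      have := mul_lt_mul_of_pos_right h2 hM'
      rw [add_mul, div_mul_cancel₀ _ hM'.ne'] at this
      linarith
    constructor
    · push_cast
      linarith
    · push_cast
      linarith

/-- upper bound for the number of lattice points -/
theorem count_upper {M : ℕ} (hM : 1 ≤ M) (c : ι → ℤ) (X : Finset (ι → ℤ)) (S : Set (ι → ℝ))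
    (hX : ∀ x ∈ X, ∀ i, (M : ℤ) ∣ x i - c i) (hS : ∀ x ∈ X, Cube M x ⊆ S) :
    ENNReal.ofReal (X.card * (M : ℝ) ^ Fintype.card ι) ≤ volume S := by
  have h1 : volume (⋃ x ∈ X, Cube M x) = ∑ x ∈ X, volume (Cube M x) := by
    apply measure_biUnion_finset
    · intro x hx x' hx' hne
      exact cube_disj hM (hX x hx) (hX x' hx') hne
    · intro x _
      exact MeasurableSet.univ_pi (fun i => measurableSet_Ico)
  have h2 : volume (⋃ x ∈ X, Cube M x) ≤ volume S := by
    apply measure_mono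
    exact Set.iUnion₂_subset hS
  rw [h1, Finset.sum_congr rfl (fun x _ => vol_cube M x), Finset.sum_const, nsmul_eq_mul] at h2
  rw [ENNReal.ofReal_mul (Nat.cast_nonneg _), ENNReal.ofReal_natCast]
  exact h2

/-- lower bound for the number of lattice points -/
theorem count_lower {M : ℕ} (hM : 1 ≤ M) (c : ι → ℤ) (X : Finset (ι → ℤ)) (S : Set (ι → ℝ))
    (hS : ∀ x, (∀ i, (M : ℤ) ∣ x i - c i) → ∀ y ∈ S, y ∈ Cube M x → x ∈ X) :
    volume S ≤ ENNReal.ofReal (X.card * (M : ℝ) ^ Fintype.card ι) := by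
  have h1 : S ⊆ ⋃ x ∈ X, Cube M x := by
    intro y hy
    obtain ⟨x, hx, hyx⟩ := cube_cover hM c y
    exact Set.mem_biUnion (hS x hx y hy hyx) hyx
  refine (measure_mono h1).trans ((measure_biUnion_finset_le _ _).trans ?_)
  rw [Finset.sum_congr rfl (fun x _ => vol_cube M x), Finset.sum_const, nsmul_eq_mul,
    ENNReal.ofReal_mul (Nat.cast_nonneg _), ENNReal.ofReal_natCast]

end

end Pool.Agent.Y592.C
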