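import Pool.Agent.Y716.C.Defs
import Pool.Agent.Y592.C.Vol

/-!
# Lattice points in a slab given by an almost linear map (job C3a)
-/

namespace Pool.Agent.Y592.C

open MeasureTheory Matrix

section
variable {ι : Type*} [Fintype ι] {s : ℕ}

theorem box_upper {r M K u : ℝ} {W : Fin s → ℝ} (hsk : s ≤ Fintype.card ι) (hr : 0 ≤ r)
    (hM : 0 ≤ M) (hu : 0 ≤ u) (hK : 0 ≤ K) (hW : ∀ j, 0 ≤ W j) (h1 : M / 2 ≤ r * u)
    (h2 : ∀ j, K * (M / 2) ≤ W j * u) :
    (2 * (r + M / 2)) ^ (Fintype.card ι - s) * ∏ j, (2 * (W j + K * (M / 2))) ≤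
      (1 + u) ^ Fintype.card ι * ((2 * r) ^ (Fintype.card ι - s) * ∏ j, (2 * W j)) := by
  have h3 : (2 * (r + M / 2)) ^ (Fintype.card ι - s) ≤
      (2 * r) ^ (Fintype.card ι - s) * (1 + u) ^ (Fintype.card ι - s) := by
    rw [← mul_pow]
    apply pow_le_pow_left₀ (by positivity)
    nlinarith
  have h4 : ∏ j, (2 * (W j + K * (M / 2))) ≤ (∏ j, (2 * W j)) * (1 + u) ^ s := by
    calc ∏ j, (2 * (W j + K * (M / 2))) ≤ ∏ j, ((2 * W j) * (1 + u)) := by
          apply Finset.prod_le_prod
          · intro j _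
            have := hW j
            positivity
          · intro j _
            nlinarith [h2 j]
      _ = (∏ j, (2 * W j)) * (1 + u) ^ s := by
          rw [Finset.prod_mul_distrib, Finset.prod_const, Finset.card_univ, Fintype.card_fin]
  have h5 : 0 ≤ ∏ j, (2 * (W j + K * (M / 2))) := by
    apply Finset.prod_nonneg
    intro j _
    have := hW j
    positivity
  calc (2 * (r + M / 2)) ^ (Fintype.card ι - s) * ∏ j, (2 * (W j + K * (M / 2)))
      ≤ ((2 * r) ^ (Fintype.card ι - s) * (1 + u) ^ (Fintype.card ι - s)) *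
        ((∏ j, (2 * W j)) * (1 + u) ^ s) := mul_le_mul h3 h4 h5 (by positivity)
    _ = ((1 + u) ^ (Fintype.card ι - s) * (1 + u) ^ s) *
        ((2 * r) ^ (Fintype.card ι - s) * ∏ j, (2 * W j)) := by ring
    _ = _ := by rw [← pow_add, Nat.sub_add_cancel hsk]

theorem box_lower {r M K u : ℝ} {W : Fin s → ℝ} (hsk : s ≤ Fintype.card ι) (hr : 0 ≤ r)
    (hu1 : u ≤ 1) (hW : ∀ j, 0 ≤ W j) (h1 : M / 2 ≤ r * u)
    (h2 : ∀ j, K * (M / 2) ≤ W j * u) :
    (1 - u) ^ Fintype.card ι * ((2 * r) ^ (Fintype.card ι - s) * ∏ j, (2 * W j)) ≤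
    (2 * (r - M / 2)) ^ (Fintype.card ι - s) * ∏ j, (2 * (W j - K * (M / 2))) := by
  have hu' : 0 ≤ 1 - u := by linarith
  have h3 : (2 * r) ^ (Fintype.card ι - s) * (1 - u) ^ (Fintype.card ι - s) ≤
      (2 * (r - M / 2)) ^ (Fintype.card ι - s) := by
    rw [← mul_pow]
    apply pow_le_pow_left₀ (by positivity)
    nlinarith
  have h4 : (∏ j, (2 * W j)) * (1 - u) ^ s ≤ ∏ j, (2 * (W j - K * (M / 2))) := by
    calc (∏ j, (2 * W j)) * (1 - u) ^ s = ∏ j, ((2 * W j) * (1 - u)) := by
          symm
          rw [Finset.prod_mul_distrib, Finset.prod_const, Finset.card_univ, Fintype.card_fin]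
      _ ≤ ∏ j, (2 * (W j - K * (M / 2))) := by
          apply Finset.prod_le_prod
          · intro j _
            have := hW j
            positivity
          · intro j _
            nlinarith [h2 j]
  have h5 : 0 ≤ ∏ j, (2 * W j) := by
    apply Finset.prod_nonneg
    intro j _
    have := hW j
    positivity
  calc (1 - u) ^ Fintype.card ι * ((2 * r) ^ (Fintype.card ι - s) * ∏ j, (2 * W j))
      = ((1 - u) ^ (Fintype.card ι - s) * (1 - u) ^ s) *
        ((2 * r) ^ (Fintype.card ι - s) * ∏ j, (2 * W j)) := by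
        rw [← pow_add, Nat.sub_add_cancel hsk]
    _ = ((2 * r) ^ (Fintype.card ι - s) * (1 - u) ^ (Fintype.card ι - s)) *
        ((∏ j, (2 * W j)) * (1 - u) ^ s) := by ring
    _ ≤ _ := mul_le_mul h3 h4 (by positivity) (le_trans (by positivity) h3)

theorem slab_lemma (ι : Type*) [Fintype ι] (s : ℕ) : Pool.Agent.Y716.C.SlabLemma ι s := by
  intro τ hτ hτ1
  obtain ⟨δ, hδ0, hδ⟩ := vol_image ι (τ / 4) (by linarith)
  have hs1 : (0 : ℝ) < s + 1 := by positivity
  refine ⟨min 1 (min (δ / (s + 1)) (1 / (2 * (s + 1)))), by positivity, min_le_left _ _, ?_⟩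
  set θ := min 1 (min (δ / ((s : ℝ) + 1)) (1 / (2 * (s + 1)))) with hθ
  have hθ0 : 0 < θ := by positivity
  have hθ1 : θ ≤ 1 := min_le_left _ _
  have hθδ : s * θ ≤ δ := by
    have h1 : θ ≤ δ / (s + 1) := (min_le_right _ _).trans (min_le_left _ _)
    rw [le_div_iff₀ hs1] at h1
    nlinarith
  have hθh : s * θ ≤ 1 / 2 := by
    have h1 : θ ≤ 1 / (2 * (s + 1)) := (min_le_right _ _).trans (min_le_right _ _)
    rw [le_div_iff₀ (by positivity)] at h1
    nlinarith
  intro C γ hC hγ hγ1
  set K : ℝ := C * Fintype.card ι + 1 with hK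
  have hK1 : 1 ≤ K := by
    have : 0 ≤ C * Fintype.card ι := by positivity
    linarith
  have hK0 : 0 < K := by linarith
  refine ⟨min (1 / 2) (min (τ / (8 * (Fintype.card ι + 1) * K)) (γ / (4 * (s + 1) * (K + 2)))),
    by positivity, (min_le_left _ _).trans (by norm_num), ?_⟩
  set κ := min (1 / 2) (min (τ / (8 * ((Fintype.card ι : ℝ) + 1) * K))
    (γ / (4 * (s + 1) * (K + 2)))) with hκ
  have hκ0 : 0 < κ := by positivity
  have hκh : κ ≤ 1 / 2 := min_le_left _ _
  set u := K * κ with hu
  have hu0 : 0 < u := by positivity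
  have hκu : κ ≤ u := by nlinarith
  have huk : Fintype.card ι * u ≤ τ / 8 ∧ u ≤ τ / 8 := by
    have h1 : κ ≤ τ / (8 * (Fintype.card ι + 1) * K) := (min_le_right _ _).trans (min_le_left _ _)
    rw [le_div_iff₀ (by positivity)] at h1
    have h2 : u * (Fintype.card ι + 1) ≤ τ / 8 := by
      rw [hu]
      linarith
    have h3 : 0 ≤ u * Fintype.card ι := by positivity
    constructor <;> linarith
  have hκγ : s * (κ * (K + 2) / γ) ≤ 1 / 4 := by
    have h1 : κ ≤ γ / (4 * (s + 1) * (K + 2)) := (min_le_right _ _).trans (min_le_right _ _)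
    rw [le_div_iff₀ (by positivity)] at h1
    rw [← mul_div_assoc, div_le_iff₀ hγ]
    have h3 : 0 < κ * (K + 2) := by positivity
    have h4 : κ * (4 * ((s : ℝ) + 1) * (K + 2)) = 4 * (s * (κ * (K + 2))) + 4 * (κ * (K + 2)) := by
      ring
    linarith
  have hpow1 : 1 - τ / 8 ≤ (1 - u) ^ Fintype.card ι := by
    have h1 := one_add_mul_le_pow (a := -u) (by linarith) (Fintype.card ι)
    have h2 : (1 - u) ^ Fintype.card ι = (1 + -u) ^ Fintype.card ι := by ring
    rw [h2]
    linarith [huk.1]
  have hpow2 : (1 + u) ^ Fintype.card ι ≤ 1 + τ / 4 := by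
    have h1 : (1 + u) ^ Fintype.card ι * (1 - u) ^ Fintype.card ι ≤ 1 := by
      rw [← mul_pow]
      have h8 : (1 + u) * (1 - u) = 1 - u * u := by ring
      have h9 : 0 ≤ u * u := by positivity
      have h10 : u * u ≤ 1 := mul_le_one₀ (by linarith [huk.2]) hu0.le (by linarith [huk.2])
      apply pow_le_one₀
      · linarith
      · linarith
    have h2 : 0 < (1 + u) ^ Fintype.card ι := by positivity
    have h3 : (1 + u) ^ Fintype.card ι * (1 - τ / 8) ≤ 1 :=
      (mul_le_mul_of_nonneg_left hpow1 h2.le).trans h1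
    nlinarith
  intro F L a Li z r r' W ha hr hrr hW hFz hL hLi hLiγ hF M hM hMr hMW c X hX
  have hM0 : (0 : ℝ) < M := by exact_mod_cast hM
  have hr'0 : 0 < r' := by
    by_contra hcon
    push Not at hcon
    have := mul_nonpos_of_nonneg_of_nonpos hκ0.le hcon
    linarith
  have hsk : s ≤ Fintype.card ι := by
    simpa using Fintype.card_le_of_injective a ha
  have hnl : NearLin F L z (2 * r') (θ * γ) := hF
  have hε1 : θ * γ ≤ 1 := mul_le_one₀ hθ1 hγ.le hγ1
  have hεγ : (s : ℝ) * (θ * γ / γ) = s * θ := by rw [mul_div_assoc, div_self hγ.ne', mul_one]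
  have hrr2 : r ≤ r' / 2 := by
    have := mul_le_mul_of_nonneg_right hκh hr'0.le
    linarith
  have hMr2 : (M : ℝ) ≤ r / 2 := by
    have := mul_le_mul_of_nonneg_right hκh hr.le
    linarith
  have h1u : (M : ℝ) / 2 ≤ r * u := by
    have := mul_le_mul_of_nonneg_right hκu hr.le
    linarith
  have h2u : ∀ j, K * ((M : ℝ) / 2) ≤ W j * u := by
    intro j
    have h1 := hMW j
    have h2 := (hW j).1
    calc K * ((M : ℝ) / 2) ≤ K * (κ * W j / 2) := by
          apply mul_le_mul_of_nonneg_left _ hK0.le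
          linarith
      _ = (W j * u) / 2 := by rw [hu]; ring
      _ ≤ W j * u := by
          have : 0 < W j * u := by positivity
          linarith
  -- determinants
  have hdet : |(Matrix.of fun j j' : Fin s => L j (a j')).det| * |Li.det| = 1 := by
    have h1 := congrArg Matrix.det hLi
    rw [Matrix.det_mul, Matrix.det_one] at h1
    rw [← abs_mul, mul_comm, h1, abs_one]
  set dA := |(Matrix.of fun j j' : Fin s => L j (a j')).det| with hdA
  have hdA0 : 0 ≤ dA := abs_nonneg _
  set Vb := (2 * r) ^ (Fintype.card ι - s) * ∏ j, (2 * W j) with hVb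
  have hVb0 : 0 ≤ Vb := by
    apply mul_nonneg (by positivity)
    apply Finset.prod_nonneg
    intro j _
    have := (hW j).1
    positivity
  set N : ℝ := X.card * (M : ℝ) ^ Fintype.card ι with hN
  have hN0 : 0 ≤ N := by positivity
  -- membership
  have hmemX : ∀ x, x ∈ X ↔ (∀ i, (M : ℤ) ∣ x i - c i) ∧
      ((∀ i, ¬ (∃ j, a j = i) → |(x i : ℝ) - z i| ≤ r) ∧
        (∀ j, |(x (a j) : ℝ) - z (a j)| ≤ r') ∧
        ∀ j, |F (fun i => (x i : ℝ)) j| ≤ W j) := by
    intro x
    rw [hX x]
    constructor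
    · rintro ⟨h1, h2, h3⟩
      refine ⟨h1, ?_, ?_, h3⟩
      · intro i hi
        have := h2 i
        rwa [if_neg hi] at this
      · intro j
        have := h2 (a j)
        rwa [if_pos ⟨j, rfl⟩] at this
    · rintro ⟨h1, h2, h3, h4⟩
      refine ⟨h1, ?_, h4⟩
      intro i
      by_cases hi : ∃ j, a j = i
      · rw [if_pos hi]
        obtain ⟨j, rfl⟩ := hi
        exact h3 j
      · rw [if_neg hi]
        exact h2 i hi
  -- upper bound
  have hup : dA * ((1 - τ / 4) * N) ≤ (1 + u) ^ Fintype.card ι * Vb := by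
    set Sp := Slab F z a (r + M / 2) (r' + M / 2) (fun j => W j + K * (M / 2)) with hSp
    have hSpc : ∀ x ∈ Sp, ∀ i, |x i - z i| ≤ 2 * r' := fun x hx i =>
      Slab.mem_cube hx (by linarith) (by linarith) i
    have h1 : ENNReal.ofReal N ≤ volume Sp := by
      apply count_upper hM c X Sp
      · intro x hx
        exact ((hmemX x).mp hx).1
      · intro x hx y hy
        obtain ⟨-, h2, h3, h4⟩ := (hmemX x).mp hx
        have hd := cube_dist hy
        have hxc : ∀ i, |(x i : ℝ) - z i| ≤ 2 * r' := by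
          intro i
          by_cases hi : ∃ j, a j = i
          · obtain ⟨j, rfl⟩ := hi
            linarith [h3 j]
          · linarith [h2 i hi]
        have e1 : ∀ i, ¬ (∃ j, a j = i) → |y i - z i| ≤ r + M / 2 := by
          intro i hi
          have h5 : y i - z i = (y i - x i) + (x i - z i) := by ring
          rw [h5]
          refine (abs_add_le _ _).trans ?_
          linarith [h2 i hi, hd i]
        have e2 : ∀ j, |y (a j) - z (a j)| ≤ r' + M / 2 := by
          intro j
          have h5 : y (a j) - z (a j) = (y (a j) - x (a j)) + (x (a j) - z (a j)) := by ring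
          rw [h5]
          refine (abs_add_le _ _).trans ?_
          linarith [h3 j, hd (a j)]
        have hyc : ∀ i, |y i - z i| ≤ 2 * r' := by
          intro i
          by_cases hi : ∃ j, a j = i
          · obtain ⟨j, rfl⟩ := hi
            linarith [e2 j]
          · linarith [e1 i hi]
        refine ⟨e1, e2, ?_⟩
        intro j
        have h5 := hnl.lip hε1 hL hyc hxc (by positivity : (0 : ℝ) ≤ M / 2) hd j
        have h6 : F y j = F (fun i => (x i : ℝ)) j + (F y j - F (fun i => (x i : ℝ)) j) := by ring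
        rw [h6]
        refine (abs_add_le _ _).trans ?_
        exact add_le_add (h4 j) h5
    have h2 := (vol_Psi hδ ha hnl hLi hγ hLiγ hδ0.le (by rw [hεγ]; exact hθδ) Sp hSpc).2
    have h3 : Psi F a '' Sp ⊆ Box z a (r + M / 2) (fun j => W j + K * (M / 2)) := by
      rintro y ⟨x, hx, rfl⟩
      constructor
      · intro i hi
        unfold Psi
        rw [ext_not a _ _ hi]
        exact hx.1 i hi
      · intro j
        unfold Psi
        rw [ext_a a ha]
        exact hx.2.2 j
    have h4 := measure_mono (μ := volume) h3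
    rw [vol_box z ha (by positivity) (fun j => by
      have := (hW j).1
      positivity)] at h4
    have h5 : ENNReal.ofReal (dA * ((1 - τ / 4) * N)) ≤
        ENNReal.ofReal ((2 * (r + M / 2)) ^ (Fintype.card ι - s) *
          ∏ j, (2 * (W j + K * (M / 2)))) := by
      refine le_trans ?_ (h2.trans h4)
      rw [ENNReal.ofReal_mul hdA0, ENNReal.ofReal_mul (by linarith)]
      exact mul_le_mul_right (mul_le_mul_right h1 _) _
    have hnn : 0 ≤ (2 * (r + (M : ℝ) / 2)) ^ (Fintype.card ι - s) *
          ∏ j, (2 * (W j + K * (M / 2))) := by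
      apply mul_nonneg (by positivity)
      apply Finset.prod_nonneg
      intro j _
      have := (hW j).1
      positivity
    rw [ENNReal.ofReal_le_ofReal_iff hnn] at h5
    exact h5.trans (box_upper hsk hr.le hM0.le hu0.le hK0.le (fun j => (hW j).1.le) h1u h2u)
  -- lower bound
  have hlo : (1 - u) ^ Fintype.card ι * Vb ≤ dA * ((1 + τ / 4) * N) := by
    set Sm := Slab F z a (r - M / 2) (r' / 2) (fun j => W j - K * (M / 2)) with hSm
    have hSmc : ∀ x ∈ Sm, ∀ i, |x i - z i| ≤ 2 * r' := fun x hx i =>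
      Slab.mem_cube hx (by linarith) (by linarith) i
    have h1 : volume Sm ≤ ENNReal.ofReal N := by
      apply count_lower hM c X Sm
      intro x hxc y hy hyx
      obtain ⟨h2, h3, h4⟩ := hy
      have hd := cube_dist hyx
      rw [hmemX]
      have e1 : ∀ i, ¬ (∃ j, a j = i) → |(x i : ℝ) - z i| ≤ r := by
        intro i hi
        have h5 : (x i : ℝ) - z i = (y i - z i) - (y i - x i) := by ring
        rw [h5]
        refine (abs_sub _ _).trans ?_
        linarith [h2 i hi, hd i]
      have e2 : ∀ j, |(x (a j) : ℝ) - z (a j)| ≤ r' := by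
        intro j
        have h5 : (x (a j) : ℝ) - z (a j) = (y (a j) - z (a j)) - (y (a j) - x (a j)) := by ring
        rw [h5]
        refine (abs_sub _ _).trans ?_
        linarith [h3 j, hd (a j)]
      refine ⟨hxc, e1, e2, ?_⟩
      intro j
      have hxc' : ∀ i, |(x i : ℝ) - z i| ≤ 2 * r' := by
        intro i
        by_cases hi : ∃ j, a j = i
        · obtain ⟨j, rfl⟩ := hi
          linarith [e2 j]
        · linarith [e1 i hi]
      have hyc : ∀ i, |y i - z i| ≤ 2 * r' := by
        intro i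
        by_cases hi : ∃ j, a j = i
        · obtain ⟨j, rfl⟩ := hi
          linarith [h3 j]
        · linarith [h2 i hi]
      have h5 := hnl.lip hε1 hL hyc hxc' (by positivity : (0 : ℝ) ≤ M / 2) hd j
      have h6 : F (fun i => (x i : ℝ)) j = F y j - (F y j - F (fun i => (x i : ℝ)) j) := by ring
      rw [h6]
      refine (abs_sub _ _).trans ?_
      linarith [h4 j]
    have h2 := (vol_Psi hδ ha hnl hLi hγ hLiγ hδ0.le (by rw [hεγ]; exact hθδ) Sm hSmc).1
    have h3 : Box z a (r - M / 2) (fun j => W j - K * (M / 2)) ⊆ Psi F a '' Sm := by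
      intro y hy
      have hdr : r ≤ κ * r' := hrr
      obtain ⟨x, hx1, hx2, hx3⟩ := surj (ρ := r' / 2) (e := κ * r') (d := r) ha hnl hε1 hL hLi hγ
        hLiγ (by rw [hεγ]; exact hθh) (by positivity) (by linarith) hr.le (by linarith) hFz
        (by
          have h5 : κ * r' + K * r + κ * r' ≤ κ * r' * (K + 2) := by
            have := mul_le_mul_of_nonneg_left hrr hK0.le
            linarith
          have h6 : (s : ℝ) * ((κ * r' + K * r + κ * r') / γ) ≤
              s * (κ * (K + 2) / γ) * r' := by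
            calc (s : ℝ) * ((κ * r' + K * r + κ * r') / γ) ≤ s * ((κ * r' * (K + 2)) / γ) := by
                  apply mul_le_mul_of_nonneg_left _ (Nat.cast_nonneg _)
                  exact div_le_div_of_nonneg_right h5 hγ.le
              _ = s * (κ * (K + 2) / γ) * r' := by ring
          refine h6.trans ?_
          have := mul_le_mul_of_nonneg_right hκγ hr'0.le
          linarith)
        (y := y) (fun i hi => by
          have := hy.1 i hi
          linarith) (fun j => by
          have h5 := hy.2 j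
          have h6 := (hW j).2
          have h7 : 0 ≤ K * ((M : ℝ) / 2) := by positivity
          linarith)
      refine ⟨x, ⟨?_, hx2, ?_⟩, ?_⟩
      · intro i hi
        rw [hx1 i hi]
        exact hy.1 i hi
      · intro j
        rw [hx3 j]
        exact hy.2 j
      · funext i
        unfold Psi
        by_cases hi : ∃ j, a j = i
        · obtain ⟨j, rfl⟩ := hi
          rw [ext_a a ha, hx3]
        · rw [ext_not a _ _ hi, hx1 i hi]
    have h4 := measure_mono (μ := volume) h3
    have hWm : ∀ j, 0 ≤ W j - K * ((M : ℝ) / 2) := by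
      intro j
      have h5 := h2u j
      have h6 := (hW j).1
      have h7 : u ≤ 1 := by linarith [huk.2]
      have h8 := mul_le_mul_of_nonneg_left h7 h6.le
      linarith
    rw [vol_box z ha (by linarith) hWm] at h4
    have h5 : ENNReal.ofReal ((2 * (r - M / 2)) ^ (Fintype.card ι - s) *
          ∏ j, (2 * (W j - K * (M / 2)))) ≤ ENNReal.ofReal (dA * ((1 + τ / 4) * N)) := by
      refine (h4.trans h2).trans ?_
      rw [ENNReal.ofReal_mul hdA0, ENNReal.ofReal_mul (by linarith)]
      exact mul_le_mul_right (mul_le_mul_right h1 _) _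
    rw [ENNReal.ofReal_le_ofReal_iff (by positivity)] at h5
    exact (box_lower hsk hr.le (by linarith [huk.2]) (fun j => (hW j).1.le) h1u h2u).trans h5
  -- end
  have hMk : (0 : ℝ) < (M : ℝ) ^ Fintype.card ι := by positivity
  have hV : (2 * r) ^ (Fintype.card ι - s) * (∏ j, (2 * W j)) * |Li.det| /
      (M : ℝ) ^ Fintype.card ι = Vb * |Li.det| / (M : ℝ) ^ Fintype.card ι := rfl
  rw [hV]
  have hcard : (X.card : ℝ) = N / (M : ℝ) ^ Fintype.card ι := by
    rw [hN, mul_div_assoc, div_self hMk.ne', mul_one]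
  have hi0 : 0 ≤ |Li.det| := abs_nonneg _
  set V := Vb * |Li.det| with hVdef
  have hV0 : 0 ≤ V := by positivity
  have hlo2 : (1 - τ) * V ≤ N := by
    have h1 := mul_le_mul_of_nonneg_right hlo hi0
    have h2 : dA * ((1 + τ / 4) * N) * |Li.det| = (1 + τ / 4) * N := by
      calc dA * ((1 + τ / 4) * N) * |Li.det| = (dA * |Li.det|) * ((1 + τ / 4) * N) := by ring
        _ = _ := by rw [hdet, one_mul]
    rw [h2] at h1
    have h3 : (1 - τ / 8) * V ≤ (1 - u) ^ Fintype.card ι * Vb * |Li.det| := by
      have h9 := mul_le_mul_of_nonneg_right hpow1 hV0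
      rwa [hVdef, ← mul_assoc ((1 - u) ^ Fintype.card ι)] at h9
    have h4 : (1 + τ / 4) * ((1 - τ) * V) ≤ (1 + τ / 4) * N := by
      refine le_trans ?_ (h3.trans h1)
      rw [← mul_assoc (1 + τ / 4)]
      apply mul_le_mul_of_nonneg_right _ hV0
      nlinarith [mul_pos hτ hτ]
    exact le_of_mul_le_mul_left h4 (by linarith)
  have hup2 : N ≤ (1 + τ) * V := by
    have h1 := mul_le_mul_of_nonneg_right hup hi0
    have h2 : dA * ((1 - τ / 4) * N) * |Li.det| = (1 - τ / 4) * N := by
      calc dA * ((1 - τ / 4) * N) * |Li.det| = (dA * |Li.det|) * ((1 - τ / 4) * N) := by ring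
        _ = _ := by rw [hdet, one_mul]
    rw [h2] at h1
    have h3 : (1 + u) ^ Fintype.card ι * Vb * |Li.det| ≤ (1 + τ / 4) * V := by
      have h9 := mul_le_mul_of_nonneg_right hpow2 hV0
      rwa [hVdef, ← mul_assoc ((1 + u) ^ Fintype.card ι)] at h9
    have h4 : (1 - τ / 4) * N ≤ (1 - τ / 4) * ((1 + τ) * V) := by
      refine (h1.trans h3).trans ?_
      rw [← mul_assoc (1 - τ / 4)]
      apply mul_le_mul_of_nonneg_right _ hV0
      have h10 : τ * τ ≤ τ * (1 / 2) := mul_le_mul_of_nonneg_left hτ1 hτ.le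
      linarith
    exact le_of_mul_le_mul_left h4 (by linarith)
  rw [hcard]
  constructor
  · rw [← mul_div_assoc]
    exact div_le_div_of_nonneg_right hlo2 hMk.le
  · rw [← mul_div_assoc]
    exact div_le_div_of_nonneg_right hup2 hMk.le

end

end Pool.Agent.Y592.C
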