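import Mathlib

/-!
# Splitting off `s` coordinates, and the volume of images of almost linear maps
-/

namespace Pool.Agent.Y592.C

open MeasureTheory Matrix

section
variable {ι : Type*} [Fintype ι] {s : ℕ}

open scoped Classical in
/-- splitting of the index set -/
noncomputable def eqv (a : Fin s → ι) (ha : Function.Injective a) :
    Fin s ⊕ ↥(Set.range a)ᶜ ≃ ι :=
  (Equiv.sumCongr (Equiv.ofInjective a ha) (Equiv.refl _)).trans (Equiv.Set.sumCompl (Set.range a))

omit [Fintype ι] in
theorem eqv_inl (a : Fin s → ι) (ha : Function.Injective a) (j : Fin s) :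
    eqv a ha (Sum.inl j) = a j := by
  simp [eqv]

omit [Fintype ι] in
theorem eqv_inr (a : Fin s → ι) (ha : Function.Injective a) (i : ↥(Set.range a)ᶜ) :
    eqv a ha (Sum.inr i) = (i : ι) := by
  simp [eqv]

omit [Fintype ι] in
theorem ext_a {α : Type*} (a : Fin s → ι) (ha : Function.Injective a) (w : Fin s → α) (v : ι → α)
    (j : Fin s) : Function.extend a w v (a j) = w j := ha.extend_apply _ _ _

omit [Fintype ι] in
theorem ext_not {α : Type*} (a : Fin s → ι) (w : Fin s → α) (v : ι → α)
    {i : ι} (h : ¬ ∃ j, a j = i) : Function.extend a w v i = v i :=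
  Function.extend_apply' _ _ _ h

omit [Fintype ι] in
theorem compl_not {a : Fin s → ι} (i : ↥(Set.range a)ᶜ) : ¬ ∃ j, a j = (i : ι) := by
  intro h
  exact i.2 h

theorem sum_ext (a : Fin s → ι) (ha : Function.Injective a) (g : ι → ℝ) (v : Fin s → ℝ) :
    ∑ i, g i * Function.extend a v (fun _ => (0 : ℝ)) i = ∑ j, g (a j) * v j := by
  classical
  rw [← (eqv a ha).sum_comp, Fintype.sum_sum_type]
  have h2 : ∑ i : ↥(Set.range a)ᶜ, g (eqv a ha (Sum.inr i)) *
      Function.extend a v (fun _ => (0 : ℝ)) (eqv a ha (Sum.inr i)) = 0 := by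
    apply Finset.sum_eq_zero
    intro i _
    rw [eqv_inr, ext_not a v _ (compl_not i), mul_zero]
  rw [h2, add_zero]
  apply Finset.sum_congr rfl
  intro j _
  rw [eqv_inl, ext_a a ha]

theorem prod_ext (a : Fin s → ι) (ha : Function.Injective a) (w : Fin s → ℝ) (ρ : ℝ) :
    ∏ i, Function.extend a w (fun _ => ρ) i = (∏ j, w j) * ρ ^ (Fintype.card ι - s) := by
  classical
  rw [← (eqv a ha).prod_comp, Fintype.prod_sum_type]
  congr 1
  · apply Finset.prod_congr rfl
    intro j _
    rw [eqv_inl, ext_a a ha]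
  · have : ∀ i : ↥(Set.range a)ᶜ, Function.extend a w (fun _ => ρ) (eqv a ha (Sum.inr i)) = ρ := by
      intro i
      rw [eqv_inr, ext_not a w _ (compl_not i)]
    rw [Finset.prod_congr rfl (fun i _ => this i), Finset.prod_const, Finset.card_univ]
    congr 1
    rw [Fintype.card_compl_set]
    congr 1
    rw [Set.card_range_of_injective ha, Fintype.card_fin]

/-- the linear map `x ↦ (x_rest, L x)` -/
noncomputable def Am [DecidableEq ι] (a : Fin s → ι) (L : Matrix (Fin s) ι ℝ) : Matrix ι ι ℝ :=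
  Matrix.of fun i i' => Function.extend a (fun j => L j i') (fun i => if i = i' then (1 : ℝ) else 0) i

theorem Am_mulVec [DecidableEq ι] (a : Fin s → ι) (ha : Function.Injective a)
    (L : Matrix (Fin s) ι ℝ) (y : ι → ℝ) :
    (Am a L).mulVec y = Function.extend a (fun j => ∑ i, L j i * y i) y := by
  funext i
  by_cases h : ∃ j, a j = i
  · obtain ⟨j, rfl⟩ := h
    rw [ext_a a ha]
    simp only [Matrix.mulVec, dotProduct, Am, Matrix.of_apply, ext_a a ha]
  · rw [ext_not a _ _ h]
    simp only [Matrix.mulVec, dotProduct, Am, Matrix.of_apply]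
    rw [Finset.sum_congr rfl (fun i' _ => by rw [ext_not a _ _ h])]
    simp

theorem det_Am [DecidableEq ι] (a : Fin s → ι) (ha : Function.Injective a)
    (L : Matrix (Fin s) ι ℝ) :
    (Am a L).det = (Matrix.of fun j j' : Fin s => L j (a j')).det := by
  classical
  rw [← Matrix.det_submatrix_equiv_self (eqv a ha) (Am a L)]
  have : (Am a L).submatrix (eqv a ha) (eqv a ha) =
      Matrix.fromBlocks (Matrix.of fun j j' : Fin s => L j (a j'))
        (Matrix.of fun (j : Fin s) (i : ↥(Set.range a)ᶜ) => L j i) 0 1 := by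
    ext x y
    rcases x with x | x <;> rcases y with y | y
    · simp only [Matrix.submatrix_apply, Am, Matrix.of_apply, Matrix.fromBlocks_apply₁₁, eqv_inl,
        ext_a a ha]
    · simp only [Matrix.submatrix_apply, Am, Matrix.of_apply, Matrix.fromBlocks_apply₁₂, eqv_inl,
        eqv_inr, ext_a a ha]
    · simp only [Matrix.submatrix_apply, Am, Matrix.of_apply, Matrix.fromBlocks_apply₂₁, eqv_inl,
        eqv_inr, Matrix.zero_apply]
      rw [ext_not a _ _ (compl_not x), if_neg]
      intro h
      exact compl_not x ⟨y, h.symm⟩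
    · simp only [Matrix.submatrix_apply, Am, Matrix.of_apply, Matrix.fromBlocks_apply₂₂, eqv_inr]
      rw [ext_not a _ _ (compl_not x), Matrix.one_apply]
      by_cases h : x = y
      · subst h
        simp
      · rw [if_neg h, if_neg]
        intro h'
        exact h (Subtype.ext h')
  rw [this, Matrix.det_fromBlocks_zero₂₁, Matrix.det_one, mul_one]

/-- image of a set under an almost linear map -/
theorem vol_image (ι : Type*) [Fintype ι] (τ : ℝ) (hτ : 0 < τ) :
    ∃ δ : ℝ, 0 < δ ∧ ∀ (S : Set (ι → ℝ)) (f : (ι → ℝ) → (ι → ℝ)),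
      (∀ x ∈ S, ∀ y ∈ S, ‖f x - f y - (x - y)‖ ≤ δ * ‖x - y‖) →
      volume (f '' S) ≤ ENNReal.ofReal (1 + τ) * volume S ∧
      ENNReal.ofReal (1 - τ) * volume S ≤ volume (f '' S) := by
  have h1 := addHaar_image_le_mul_of_det_lt (volume : Measure (ι → ℝ))
    (ContinuousLinearMap.id ℝ (ι → ℝ)) (m := Real.toNNReal (1 + τ)) (by
      simp only [ContinuousLinearMap.det, ContinuousLinearMap.coe_id, LinearMap.det_id, abs_one,
        ENNReal.ofReal_one]
      rw [← ENNReal.ofReal, ENNReal.one_lt_ofReal]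
      linarith)
  have h2 := mul_le_addHaar_image_of_lt_det (volume : Measure (ι → ℝ))
    (ContinuousLinearMap.id ℝ (ι → ℝ)) (m := Real.toNNReal (1 - τ)) (by
      simp only [ContinuousLinearMap.det, ContinuousLinearMap.coe_id, LinearMap.det_id, abs_one,
        ENNReal.ofReal_one]
      rw [← ENNReal.ofReal, ENNReal.ofReal_lt_one]
      linarith)
  have h3 := h1.and (h2.and self_mem_nhdsWithin)
  obtain ⟨δ, hδ1, hδ2, hδ3⟩ := h3.exists
  refine ⟨δ, hδ3, ?_⟩
  intro S f hf
  have h4 : ApproximatesLinearOn f (ContinuousLinearMap.id ℝ (ι → ℝ)) S δ := by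
    intro x hx y hy
    simpa using hf x hx y hy
  exact ⟨hδ1 S f h4, hδ2 S f h4⟩

end

end Pool.Agent.Y592.C
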