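import Pool.Agent.Y592.C.Split

/-!
# Almost linear maps: estimates and surjectivity on slices
-/

namespace Pool.Agent.Y592.C

open MeasureTheory Matrix

section
variable {ι : Type*} [Fintype ι] {s : ℕ}

/-- `F` is almost linear on the cube of radius `R` around `z` -/
def NearLin (F : (ι → ℝ) → Fin s → ℝ) (L : Matrix (Fin s) ι ℝ) (z : ι → ℝ) (R ε : ℝ) : Prop :=
  ∀ x y : ι → ℝ, (∀ i, |x i - z i| ≤ R) → (∀ i, |y i - z i| ≤ R) →
      ∀ D : ℝ, (∀ i, |x i - y i| ≤ D) →
      ∀ j, |F x j - F y j - ∑ i, L j i * (x i - y i)| ≤ ε * D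

theorem NearLin.lip {F : (ι → ℝ) → Fin s → ℝ} {L : Matrix (Fin s) ι ℝ} {z : ι → ℝ} {R ε C : ℝ}
    (h : NearLin F L z R ε) (hε : ε ≤ 1) (hL : ∀ j i, |L j i| ≤ C) {x y : ι → ℝ}
    (hx : ∀ i, |x i - z i| ≤ R) (hy : ∀ i, |y i - z i| ≤ R) {D : ℝ} (hD0 : 0 ≤ D)
    (hD : ∀ i, |x i - y i| ≤ D) (j : Fin s) :
    |F x j - F y j| ≤ (C * Fintype.card ι + 1) * D := by
  have h1 := h x y hx hy D hD j
  have h2 : |∑ i, L j i * (x i - y i)| ≤ C * Fintype.card ι * D := by
    refine (Finset.abs_sum_le_sum_abs _ _).trans ?_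
    calc ∑ i, |L j i * (x i - y i)| ≤ ∑ _i : ι, C * D := by
          apply Finset.sum_le_sum
          intro i _
          rw [abs_mul]
          exact mul_le_mul (hL j i) (hD i) (abs_nonneg _) ((abs_nonneg _).trans (hL j i))
      _ = C * Fintype.card ι * D := by
          rw [Finset.sum_const, Finset.card_univ, nsmul_eq_mul]
          ring
  have h3 : F x j - F y j = (F x j - F y j - ∑ i, L j i * (x i - y i)) +
      ∑ i, L j i * (x i - y i) := by ring
  rw [h3]
  refine (abs_add_le _ _).trans ?_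
  have h4 : ε * D ≤ 1 * D := mul_le_mul_of_nonneg_right hε hD0
  linarith

theorem li_bound {Li : Matrix (Fin s) (Fin s) ℝ} {γ : ℝ} (hγ : 0 < γ)
    (hLi : ∀ j j', |Li j j'| ≤ 1 / γ) {E : Fin s → ℝ} {e : ℝ} (hE : ∀ j, |E j| ≤ e) (j : Fin s) :
    |∑ j', Li j j' * E j'| ≤ s * (e / γ) := by
  refine (Finset.abs_sum_le_sum_abs _ _).trans ?_
  calc ∑ j', |Li j j' * E j'| ≤ ∑ _j' : Fin s, e / γ := by
        apply Finset.sum_le_sum
        intro j' _
        rw [abs_mul]
        calc |Li j j'| * |E j'| ≤ 1 / γ * e :=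
              mul_le_mul (hLi j j') (hE j') (abs_nonneg _) (by positivity)
          _ = e / γ := by ring
    _ = s * (e / γ) := by
        rw [Finset.sum_const, Finset.card_univ, Fintype.card_fin, nsmul_eq_mul]

theorem la_li {a : Fin s → ι} {L : Matrix (Fin s) ι ℝ} {Li : Matrix (Fin s) (Fin s) ℝ}
    (hLi : Li * (Matrix.of fun j j' : Fin s => L j (a j')) = 1) :
    (Matrix.of fun j j' : Fin s => L j (a j')) * Li = 1 := mul_eq_one_comm.mp hLi

theorem li_apply {a : Fin s → ι} {L : Matrix (Fin s) ι ℝ} {Li : Matrix (Fin s) (Fin s) ℝ}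
    (hLi : Li * (Matrix.of fun j j' : Fin s => L j (a j')) = 1) (v : Fin s → ℝ) (j : Fin s) :
    ∑ j', Li j j' * ∑ j'', L j' (a j'') * v j'' = v j := by
  have h := congrFun (congrArg (fun A => A.mulVec v) hLi) j
  simp only [← Matrix.mulVec_mulVec, Matrix.one_mulVec] at h
  exact h

theorem la_apply {a : Fin s → ι} {L : Matrix (Fin s) ι ℝ} {Li : Matrix (Fin s) (Fin s) ℝ}
    (hLi : Li * (Matrix.of fun j j' : Fin s => L j (a j')) = 1) (v : Fin s → ℝ) (j : Fin s) :
    ∑ j', L j (a j') * ∑ j'', Li j' j'' * v j'' = v j := by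
  have h := congrFun (congrArg (fun A => A.mulVec v) (la_li hLi)) j
  simp only [← Matrix.mulVec_mulVec, Matrix.one_mulVec] at h
  exact h

/-- surjectivity on slices -/
theorem surj {F : (ι → ℝ) → Fin s → ℝ} {L : Matrix (Fin s) ι ℝ} {z : ι → ℝ} {R ε C γ ρ : ℝ}
    {a : Fin s → ι} {Li : Matrix (Fin s) (Fin s) ℝ} (ha : Function.Injective a)
    (h : NearLin F L z R ε) (hε1 : ε ≤ 1) (hL : ∀ j i, |L j i| ≤ C)
    (hLi : Li * (Matrix.of fun j j' : Fin s => L j (a j')) = 1) (hγ : 0 < γ)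
    (hLiγ : ∀ j j', |Li j j'| ≤ 1 / γ) (hεγ : s * (ε / γ) ≤ 1 / 2) (hρ : 0 ≤ ρ) (hρR : ρ ≤ R)
    {e d : ℝ} (hd0 : 0 ≤ d) (hdR : d ≤ R) (hFz : ∀ j, |F z j| ≤ e)
    (hsm : s * ((e + (C * Fintype.card ι + 1) * d + e) / γ) ≤ ρ / 2)
    {y : ι → ℝ} (hy : ∀ i, ¬ (∃ j, a j = i) → |y i - z i| ≤ d) (hw : ∀ j, |y (a j)| ≤ e) :
    ∃ x : ι → ℝ, (∀ i, ¬ (∃ j, a j = i) → x i = y i) ∧ (∀ j, |x (a j) - z (a j)| ≤ ρ) ∧
      ∀ j, F x j = y (a j) := by
  classical
  set mg : (Fin s → ℝ) → (ι → ℝ) := fun t => Function.extend a t y with hmg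
  have mga : ∀ t j, mg t (a j) = t j := fun t j => ext_a a ha _ _ j
  have mgn : ∀ t i, ¬ (∃ j, a j = i) → mg t i = y i := fun t i hi => ext_not a _ _ hi
  set t₀ : Fin s → ℝ := fun j => z (a j) with ht₀
  set T : (Fin s → ℝ) → (Fin s → ℝ) := fun t j => t j - ∑ j', Li j j' * (F (mg t) j' - y (a j'))
    with hT
  have hin : ∀ t, (∀ j, |t j - t₀ j| ≤ ρ) → ∀ i, |mg t i - z i| ≤ R := by
    intro t ht i
    by_cases hi : ∃ j, a j = i
    · obtain ⟨j, rfl⟩ := hi
      rw [mga]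
      exact (ht j).trans hρR
    · rw [mgn t i hi]
      exact (hy i hi).trans hdR
  have hlip : ∀ t t', (∀ j, |t j - t₀ j| ≤ ρ) → (∀ j, |t' j - t₀ j| ≤ ρ) → ∀ D : ℝ, 0 ≤ D →
      (∀ j, |t j - t' j| ≤ D) → ∀ j, |T t j - T t' j| ≤ 1 / 2 * D := by
    intro t t' ht ht' D hD0 hD j
    have h1 : ∀ i, |mg t i - mg t' i| ≤ D := by
      intro i
      by_cases hi : ∃ j, a j = i
      · obtain ⟨j, rfl⟩ := hi
        rw [mga, mga]
        exact hD j
      · rw [mgn t i hi, mgn t' i hi, sub_self, abs_zero]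
        exact hD0
    have h2 := h (mg t) (mg t') (hin t ht) (hin t' ht') D h1
    have h3 : ∀ j', ∑ i, L j' i * (mg t i - mg t' i) = ∑ j'', L j' (a j'') * (t j'' - t' j'') := by
      intro j'
      rw [← sum_ext a ha (L j') (fun j'' => t j'' - t' j'')]
      apply Finset.sum_congr rfl
      intro i _
      congr 1
      by_cases hi : ∃ j, a j = i
      · obtain ⟨j, rfl⟩ := hi
        rw [mga, mga, ext_a a ha]
      · rw [mgn t i hi, mgn t' i hi, ext_not a _ _ hi, sub_self]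
    have h4 := li_bound (Li := Li) hγ hLiγ h2 j
    have h5 : T t j - T t' j =
        - ∑ j', Li j j' * (F (mg t) j' - F (mg t') j' - ∑ i, L j' i * (mg t i - mg t' i)) := by
      have h6 := li_apply hLi (fun j'' => t j'' - t' j'') j
      simp only [hT]
      simp only [h3]
      have h7 : ∑ j', Li j j' * (F (mg t) j' - F (mg t') j' -
            ∑ j'', L j' (a j'') * (t j'' - t' j'')) =
          ∑ j', Li j j' * (F (mg t) j' - y (a j')) - ∑ j', Li j j' * (F (mg t') j' - y (a j')) -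
            ∑ j', Li j j' * ∑ j'', L j' (a j'') * (t j'' - t' j'') := by
        rw [← Finset.sum_sub_distrib, ← Finset.sum_sub_distrib]
        apply Finset.sum_congr rfl
        intro j' _
        ring
      rw [h7, h6]
      ring
    rw [h5, abs_neg]
    refine h4.trans ?_
    calc (s : ℝ) * (ε * D / γ) = s * (ε / γ) * D := by ring
      _ ≤ 1 / 2 * D := mul_le_mul_of_nonneg_right hεγ hD0
  have ht00 : ∀ j, |t₀ j - t₀ j| ≤ ρ := fun j => by simpa using hρ
  have hcen : ∀ j, |T t₀ j - t₀ j| ≤ ρ / 2 := by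
    intro j
    have h1 : ∀ j', |F (mg t₀) j' - y (a j')| ≤ e + (C * Fintype.card ι + 1) * d + e := by
      intro j'
      have h2 : ∀ i, |mg t₀ i - z i| ≤ d := by
        intro i
        by_cases hi : ∃ j, a j = i
        · obtain ⟨j, rfl⟩ := hi
          rw [mga]
          simpa [ht₀] using hd0
        · rw [mgn t₀ i hi]
          exact hy i hi
      have h3 := h.lip hε1 hL (hin t₀ ht00) (fun i => by
        simpa using (hd0.trans hdR)) hd0 h2 j'
      have h4 := hFz j'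
      have h5 := hw j'
      have h6 : F (mg t₀) j' - y (a j') = F z j' + (F (mg t₀) j' - F z j') - y (a j') := by ring
      rw [h6]
      refine (abs_sub _ _).trans ?_
      refine (add_le_add (abs_add_le _ _) le_rfl).trans ?_
      linarith
    have h2 := li_bound (Li := Li) hγ hLiγ h1 j
    have h3 : T t₀ j - t₀ j = - ∑ j', Li j j' * (F (mg t₀) j' - y (a j')) := by
      simp only [hT]
      ring
    rw [h3, abs_neg]
    exact h2.trans hsm
  have hmem : ∀ t : Fin s → ℝ, t ∈ Metric.closedBall t₀ ρ ↔ ∀ j, |t j - t₀ j| ≤ ρ := by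
    intro t
    rw [Metric.mem_closedBall, dist_pi_le_iff hρ]
    simp only [Real.dist_eq]
  have hmaps : Set.MapsTo T (Metric.closedBall t₀ ρ) (Metric.closedBall t₀ ρ) := by
    intro t ht
    rw [hmem] at ht ⊢
    intro j
    have h1 := hlip t t₀ ht ht00 ρ hρ ht j
    have h2 := hcen j
    have h3 : T t j - t₀ j = (T t j - T t₀ j) + (T t₀ j - t₀ j) := by ring
    rw [h3]
    refine (abs_add_le _ _).trans ?_
    linarith
  have hcontr : ContractingWith (1 / 2 : NNReal) (hmaps.restrict T _ _) := by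
    refine ⟨by
      rw [← NNReal.coe_lt_coe]
      norm_num, ?_⟩
    apply LipschitzWith.of_dist_le_mul
    rintro ⟨t, ht⟩ ⟨t', ht'⟩
    rw [hmem] at ht ht'
    change dist (T t) (T t') ≤ _ * dist t t'
    rw [dist_pi_le_iff (by positivity)]
    intro j
    rw [Real.dist_eq]
    have h1 : ∀ j, |t j - t' j| ≤ dist t t' := by
      intro j
      rw [← Real.dist_eq]
      exact dist_le_pi_dist t t' j
    have h2 := hlip t t' ht ht' _ dist_nonneg h1 j
    refine h2.trans (le_of_eq ?_)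
    norm_num
  have hcomp : IsComplete (Metric.closedBall t₀ ρ) := Metric.isClosed_closedBall.isComplete
  obtain ⟨t, ht, hfix, -, -⟩ := ContractingWith.exists_fixedPoint' hcomp hmaps hcontr
    (Metric.mem_closedBall_self hρ) (edist_ne_top _ _)
  rw [hmem] at ht
  refine ⟨mg t, mgn t, ?_, ?_⟩
  · intro j
    rw [mga]
    exact ht j
  · intro j
    have h1 : ∀ j', ∑ j'', Li j' j'' * (F (mg t) j'' - y (a j'')) = 0 := by
      intro j'
      have h2 := congrFun hfix j'
      simp only [hT] at h2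
      linarith
    have h2 := la_apply hLi (fun j'' => F (mg t) j'' - y (a j'')) j
    simp only [h1, mul_zero, Finset.sum_const_zero] at h2
    linarith

end

end Pool.Agent.Y592.C
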